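import Mathlib

/-! For every ratio limit there is a lacunary sequence with independent-model cumulants. -/

namespace Pool.Agent.Results.MP_5c394f_nt.EveryRatio

open MeasureTheory ProbabilityTheory Finset Filter Topology Real
open scoped Pointwise

/-- Lebesgue measure on the unit interval. -/
noncomputable def P : Measure ℝ := volume.restrict (Set.Icc 0 1)

/-- The `m`-th cumulant: the `m`-th derivative at zero of `log E exp (t X)`. -/
noncomputable def cum (X : ℝ → ℝ) (m : ℕ) : ℝ := iteratedDeriv m (cgf X P) 0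

/-- The lacunary cosine sum with `n` terms. -/
noncomputable def S (a : ℕ → ℕ) (n : ℕ) (ω : ℝ) : ℝ := ∑ k ∈ range n, cos (2 * π * a k * ω)

/-- The cumulants of one summand of the independent model (arcsine law). -/
noncomputable def kInd (m : ℕ) : ℝ := cum (fun ω => cos (2 * π * ω)) m

instance : IsProbabilityMeasure P := ⟨by simp [P]⟩

lemma integ {E : Type*} [NormedAddCommGroup E] {f : ℝ → E} (hf : Continuous f) :
    Integrable f P := hf.continuousOn.integrableOn_Icc

lemma int_eq {E : Type*} [NormedAddCommGroup E] [NormedSpace ℝ E] (f : ℝ → E) :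
    ∫ x, f x ∂P = ∫ x in (0 : ℝ)..1, f x := by
  rw [P, integral_Icc_eq_integral_Ioc, intervalIntegral.integral_of_le zero_le_one]

lemma mem_int {X : ℝ → ℝ} (hX : Continuous X) (t : ℝ) : t ∈ interior (integrableExpSet X P) := by
  have : integrableExpSet X P = Set.univ :=
    Set.eq_univ_of_forall fun t => integ (by fun_prop)
  rw [this]; simp

lemma mgf_cd {X : ℝ → ℝ} (hX : Continuous X) : ContDiff ℝ ⊤ (mgf X P) :=
  contDiff_iff_contDiffAt.2 fun t => (analyticAt_mgf (mem_int hX t)).contDiffAt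

lemma mgf_p {X : ℝ → ℝ} (hX : Continuous X) (t : ℝ) : 0 < mgf X P t := mgf_pos (integ (by fun_prop))

lemma log_rec {f : ℝ → ℝ} (hf : ContDiff ℝ ⊤ f) (hp : ∀ t, 0 < f t) (n : ℕ) :
    iteratedDeriv (n + 1) f 0 = ∑ i ∈ range (n + 1), n.choose i * iteratedDeriv i f 0 *
      iteratedDeriv (n - i + 1) (fun t => log (f t)) 0 := by
  have hL : ContDiff ℝ ⊤ (fun t => log (f t)) := hf.log fun t => (hp t).ne'
  have e : deriv f = f * deriv (fun t => log (f t)) := by
    funext t
    rw [Pi.mul_apply, deriv.log (hf.differentiable (by simp) t) (hp t).ne']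
    field_simp [(hp t).ne']
  rw [iteratedDeriv_succ', e, iteratedDeriv_mul (hf.of_le le_top).contDiffAt
    (((hL.of_le (le_top (a := ((n : WithTop ℕ∞) + 1)))).deriv').contDiffAt)]
  simp only [iteratedDeriv_succ']

lemma jet {f g : ℝ → ℝ} (hf : ContDiff ℝ ⊤ f) (hp : ∀ t, 0 < f t) (hg : ContDiff ℝ ⊤ g)
    (hq : ∀ t, 0 < g t) (m : ℕ) (h : ∀ i ≤ m, iteratedDeriv i f 0 = iteratedDeriv i g 0) :
    ∀ n ≤ m, iteratedDeriv n (fun t => log (f t)) 0 = iteratedDeriv n (fun t => log (g t)) 0 := by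
  intro n
  induction n using Nat.strong_induction_on with
  | _ n ih =>
    intro hn
    have h0 : f 0 = g 0 := by simpa using h 0 (Nat.zero_le _)
    rcases n with _ | n
    · simp [h0]
    have e := h (n + 1) hn
    rw [log_rec hf hp, log_rec hg hq, sum_range_succ', sum_range_succ'] at e
    have e2 : ∑ i ∈ range n, (n.choose (i + 1) : ℝ) * iteratedDeriv (i + 1) f 0 *
        iteratedDeriv (n - (i + 1) + 1) (fun t => log (f t)) 0 =
        ∑ i ∈ range n, (n.choose (i + 1) : ℝ) * iteratedDeriv (i + 1) g 0 *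
        iteratedDeriv (n - (i + 1) + 1) (fun t => log (g t)) 0 := by
      refine sum_congr rfl fun i hi => ?_
      have := mem_range.1 hi
      rw [h (i + 1) (by omega), ih _ (by omega) (by omega)]
    rw [e2, add_right_inj] at e
    simp only [Nat.choose_zero_right, Nat.cast_one, iteratedDeriv_zero, one_mul, Nat.sub_zero,
      h0] at e
    exact mul_left_cancel₀ (hq 0).ne' e

lemma cum_add {X Y : ℝ → ℝ} (hX : Continuous X) (hY : Continuous Y) (m : ℕ)
    (h : ∀ i j, i + j ≤ m → ∫ ω, X ω ^ i * Y ω ^ j ∂P = (∫ ω, X ω ^ i ∂P) * ∫ ω, Y ω ^ j ∂P) :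
    cum (fun ω => X ω + Y ω) m = cum X m + cum Y m := by
  have hXY : Continuous fun ω => X ω + Y ω := hX.add hY
  have k := jet (mgf_cd hXY) (mgf_p hXY) ((mgf_cd hX).mul (mgf_cd hY))
    (fun t => mul_pos (mgf_p hX t) (mgf_p hY t)) m (fun i hi => by
      rw [iteratedDeriv_fun_mul ((mgf_cd hX).of_le le_top).contDiffAt
        ((mgf_cd hY).of_le le_top).contDiffAt, iteratedDeriv_mgf_zero (mem_int hXY 0)]
      simp only [Pi.pow_apply, add_pow]
      rw [integral_finsetSum _ fun j _ => integ (by fun_prop)]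
      refine sum_congr rfl fun j hj => ?_
      have := mem_range.1 hj
      rw [integral_mul_const, h j (i - j) (by omega), iteratedDeriv_mgf_zero (mem_int hX 0),
        iteratedDeriv_mgf_zero (mem_int hY 0)]
      simp only [Pi.pow_apply]
      ring) m le_rfl
  unfold cum cgf
  rw [k]
  simp only [fun t => log_mul (mgf_p hX t).ne' (mgf_p hY t).ne']
  exact iteratedDeriv_fun_add
    (((mgf_cd hX).log fun t => (mgf_p hX t).ne').of_le le_top).contDiffAt
    (((mgf_cd hY).log fun t => (mgf_p hY t).ne').of_le le_top).contDiffAt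

lemma cum_cos {b : ℕ} (hb : 0 < b) (m : ℕ) : cum (fun ω => cos (2 * π * b * ω)) m = kInd m := by
  unfold kInd cum
  congr 1
  funext t
  unfold cgf mgf
  congr 1
  rw [int_eq, int_eq]
  set f : ℝ → ℝ := fun ω => exp (t * cos (2 * π * ω)) with hf
  have per : Function.Periodic f 1 := fun x => by
    simp only [hf, mul_add, mul_one, cos_add_two_pi]
  have b0 : (b : ℝ) ≠ 0 := by exact_mod_cast hb.ne'
  have e1 : ∫ x in (0 : ℝ)..1, exp (t * cos (2 * π * b * x)) = ∫ x in (0 : ℝ)..1, f (b * x) := by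
    simp only [hf, mul_assoc]
  have e2 := per.intervalIntegral_add_zsmul_eq (b : ℤ) 0
    (fun x y => (by fun_prop : Continuous f).intervalIntegrable x y)
  rw [e1, intervalIntegral.integral_comp_mul_left _ b0]
  simp only [zsmul_eq_mul, Int.cast_natCast, mul_one, zero_add, mul_zero, smul_eq_mul] at e2 ⊢
  rw [e2]
  field_simp

/-- characters -/
noncomputable def e (x : ℤ) : C(ℝ, ℂ) := ⟨fun ω => Complex.exp (2 * π * Complex.I * x * ω), by
  fun_prop⟩

lemma e_add (x y : ℤ) : e x * e y = e (x + y) := by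
  ext ω
  simp only [e, ContinuousMap.mul_apply, ContinuousMap.coe_mk, ← Complex.exp_add]
  push_cast
  ring_nf

/-- expectation as a linear map -/
noncomputable def Ex : C(ℝ, ℂ) →ₗ[ℂ] ℂ where
  toFun f := ∫ ω, f ω ∂P
  map_add' f g := by
    simp only [ContinuousMap.add_apply]
    exact integral_add (integ f.continuous) (integ g.continuous)
  map_smul' c f := by
    simp only [ContinuousMap.smul_apply, RingHom.id_apply]
    exact integral_smul _ _

lemma Ex_e (x : ℤ) : Ex (e x) = if x = 0 then 1 else 0 := by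
  simp only [Ex, e, LinearMap.coe_mk, AddHom.coe_mk, ContinuousMap.coe_mk]
  split_ifs with h
  · simp [h]
  · have : (2 * π * Complex.I * x : ℂ) ≠ 0 := by
      simp [h, pi_ne_zero]
    rw [int_eq, integral_exp_mul_complex this]
    simp only [Complex.ofReal_one, mul_one, Complex.ofReal_zero, mul_zero, Complex.exp_zero]
    rw [mul_comm _ (x : ℂ), Complex.exp_int_mul_two_pi_mul_I]
    simp

/-- trigonometric polynomials with frequencies in `A` -/
noncomputable def V (A : Finset ℤ) : Submodule ℂ C(ℝ, ℂ) := Submodule.span ℂ (e '' A)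

lemma V_mul {A B : Finset ℤ} {f g : C(ℝ, ℂ)} (hf : f ∈ V A) (hg : g ∈ V B) : f * g ∈ V (A + B) := by
  have := Submodule.mul_mem_mul hf hg
  rw [V, V, Submodule.span_mul_span] at this
  refine Submodule.span_mono ?_ this
  rintro _ ⟨_, ⟨x, hx, rfl⟩, _, ⟨y, hy, rfl⟩, rfl⟩
  exact ⟨x + y, Finset.add_mem_add hx hy, (e_add x y).symm⟩

lemma V_pow {A : Finset ℤ} {f : C(ℝ, ℂ)} (hf : f ∈ V A) (i : ℕ) : f ^ i ∈ V (i • A) := by
  induction i with
  | zero =>
    refine Submodule.subset_span ⟨0, by simp, ?_⟩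
    ext ω; simp [e]
  | succ i ih => rw [pow_succ, succ_nsmul]; exact V_mul ih hf

lemma V_orth {A B : Finset ℤ} (h : ∀ x ∈ A, ∀ y ∈ B, x + y = 0 → y = 0) {f g : C(ℝ, ℂ)}
    (hf : f ∈ V A) (hg : g ∈ V B) : Ex (f * g) = Ex f * Ex g := by
  induction hf using Submodule.span_induction with
  | zero => simp
  | add _ _ _ _ h1 h2 => rw [add_mul, map_add, map_add, h1, h2, add_mul]
  | smul c _ _ h1 => rw [smul_mul_assoc, map_smul, map_smul, h1, smul_mul_assoc]
  | mem f hf =>
    obtain ⟨x, hx, rfl⟩ := hf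
    induction hg using Submodule.span_induction with
    | zero => simp
    | add _ _ _ _ h1 h2 => rw [mul_add, map_add, map_add, h1, h2, mul_add]
    | smul c _ _ h1 => rw [mul_smul_comm, map_smul, map_smul, h1, mul_smul_comm]
    | mem g hg =>
      obtain ⟨y, hy, rfl⟩ := hg
      rw [e_add, Ex_e, Ex_e, Ex_e]
      by_cases hy0 : y = 0
      · simp [hy0]
      · rw [if_neg (fun e => hy0 (h x hx y hy e)), if_neg hy0, mul_zero]

/-- the cosine as a continuous map -/
noncomputable def cs (b : ℕ) : C(ℝ, ℂ) := ⟨fun ω => (cos (2 * π * b * ω) : ℝ), by fun_prop⟩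

lemma cs_mem {A : Finset ℤ} {b : ℕ} (h1 : (b : ℤ) ∈ A) (h2 : -(b : ℤ) ∈ A) : cs b ∈ V A := by
  have : cs b = (1 / 2 : ℂ) • (e b + e (-b)) := by
    ext ω
    simp only [cs, e, ContinuousMap.coe_mk, ContinuousMap.smul_apply, ContinuousMap.add_apply,
      Complex.ofReal_cos, Complex.cos, smul_eq_mul]
    push_cast
    ring_nf
  rw [this]
  exact Submodule.smul_mem _ _ (Submodule.add_mem _ (Submodule.subset_span ⟨_, h1, rfl⟩)
    (Submodule.subset_span ⟨_, h2, rfl⟩))

/-- frequencies of the first `n` terms, together with zero -/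
def Fr (a : ℕ → ℕ) (n : ℕ) : Finset ℤ :=
  insert 0 ((range n).image (fun k => (a k : ℤ)) ∪ (range n).image fun k => -(a k : ℤ))

/-- forbidden next terms at level `m` -/
def Forb (a : ℕ → ℕ) (n m : ℕ) : Finset ℕ :=
  ((m • Fr a n) ×ˢ Icc 1 m).image fun q => q.1.natAbs / q.2

lemma card_Forb (a : ℕ → ℕ) (n m : ℕ) : (Forb a n m).card ≤ (2 * n + 1) ^ m * m := by
  refine card_image_le.trans ?_
  rw [card_product, Nat.card_Icc, Nat.add_sub_cancel]
  gcongr
  refine card_nsmul_le.trans ?_
  gcongr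
  refine (card_insert_le _ _).trans ?_
  have := card_union_le ((range n).image (fun k => (a k : ℤ))) ((range n).image fun k => -(a k : ℤ))
  have h1 := card_image_le (s := range n) (f := fun k => (a k : ℤ))
  have h2 := card_image_le (s := range n) (f := fun k => -(a k : ℤ))
  rw [card_range] at h1 h2
  omega

lemma mult (b : ℤ) (j : ℕ) : ∀ y ∈ j • ({b, -b} : Finset ℤ), ∃ c : ℤ, c.natAbs ≤ j ∧ y = c * b := by
  induction j with
  | zero => intro y hy; exact ⟨0, le_rfl, by simpa using hy⟩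
  | succ j ih =>
    intro y hy
    rw [succ_nsmul, Finset.mem_add] at hy
    obtain ⟨u, hu, v, hv, rfl⟩ := hy
    obtain ⟨c, hc, rfl⟩ := ih u hu
    rcases mem_insert.1 hv with rfl | hv
    · exact ⟨c + 1, by omega, by ring⟩
    · rw [mem_singleton.1 hv]; exact ⟨c - 1, by omega, by ring⟩

lemma step (a : ℕ → ℕ) (n : ℕ) {m M : ℕ} (hm : m ≤ M) (h0 : 0 < a n) (h : a n ∉ Forb a n M) :
    cum (S a (n + 1)) m = cum (S a n) m + kInd m := by
  have cS : Continuous (S a n) := by unfold S; fun_prop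
  rw [← cum_cos h0, ← cum_add cS (by fun_prop)]
  · congr 1
    funext ω
    simp only [S, sum_range_succ]
  intro i j hij
  have m1 : ∑ k ∈ range n, cs (a k) ∈ V (Fr a n) :=
    Submodule.sum_mem _ fun k hk => cs_mem
      (mem_insert_of_mem (mem_union_left _ (mem_image_of_mem (fun k => (a k : ℤ)) hk)))
      (mem_insert_of_mem (mem_union_right _ (mem_image_of_mem (fun k => -(a k : ℤ)) hk)))
  have m2 : cs (a n) ∈ V {(a n : ℤ), -(a n : ℤ)} := cs_mem (by simp) (by simp)
  have k := V_orth (fun x hx y hy e => by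
    obtain ⟨c, hc, rfl⟩ := mult _ _ y hy
    by_contra hne
    have c0 : c ≠ 0 := fun e => hne (by rw [e, zero_mul])
    refine h (mem_image.2 ⟨(x, c.natAbs), mem_product.2 ⟨?_, mem_Icc.2 ⟨by omega, by omega⟩⟩, ?_⟩)
    · exact Finset.nsmul_subset_nsmul_right (mem_insert_self _ _) (show i ≤ M by omega) hx
    · have : x = -(c * a n) := by linarith
      simp only [this, Int.natAbs_neg, Int.natAbs_mul, Int.natAbs_natCast]
      exact Nat.mul_div_cancel_left _ (by omega)) (V_pow m1 i) (V_pow m2 j)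
  simp only [Ex, cs, LinearMap.coe_mk, AddHom.coe_mk, ContinuousMap.mul_apply,
    ContinuousMap.pow_apply, ContinuousMap.coe_sum, Finset.sum_apply, ContinuousMap.coe_mk,
    ← Complex.ofReal_sum, ← Complex.ofReal_pow, ← Complex.ofReal_mul] at k
  exact_mod_cast k

/-- course-of-values recursion -/
noncomputable def seq (G : (n : ℕ) → (Fin n → ℕ) → ℕ) (n : ℕ) : ℕ := G n fun k => seq G k
termination_by n
decreasing_by exact k.2

lemma exists_rec (Q : ℕ → (ℕ → ℕ) → ℕ → Prop) (hQ : ∀ n p, ∃ b, Q n p b)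
    (hc : ∀ n p q b, (∀ k < n, p k = q k) → Q n p b → Q n q b) : ∃ a : ℕ → ℕ, ∀ n, Q n a (a n) := by
  choose g hg using hQ
  let G : (n : ℕ) → (Fin n → ℕ) → ℕ := fun n p => g n fun k => if h : k < n then p ⟨k, h⟩ else 0
  refine ⟨seq G, fun n => ?_⟩
  have : seq G n = g n fun k => if h : k < n then seq G k else 0 := by rw [seq]
  rw [this]
  exact hc n _ _ _ (fun k hk => by simp [hk]) (hg n _)

lemma diag (u : ℕ → ℕ → ℝ) (h0 : ∀ m n, 0 ≤ u m n) (h : ∀ m, Tendsto (u m) atTop (𝓝 0)) :
    ∃ M : ℕ → ℕ, Tendsto M atTop atTop ∧ Tendsto (fun n => u (M n) n) atTop (𝓝 0) := by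
  classical
  let M : ℕ → ℕ := fun n => Nat.findGreatest (fun m => u m n ≤ 1 / ((m : ℝ) + 1)) n
  have ev : ∀ m, ∀ᶠ n in atTop, m ≤ M n ∧ u (M n) n ≤ 1 / ((M n : ℝ) + 1) := by
    intro m
    filter_upwards [(h m).eventually (ge_mem_nhds (show (0 : ℝ) < 1 / ((m : ℝ) + 1) by positivity)),
      eventually_ge_atTop m] with n h1 h2
    exact ⟨Nat.le_findGreatest h2 h1,
      Nat.findGreatest_spec (P := fun m => u m n ≤ 1 / ((m : ℝ) + 1)) h2 h1⟩
  have t : Tendsto M atTop atTop := tendsto_atTop.2 fun m => (ev m).mono fun n hn => hn.1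
  exact ⟨M, t, squeeze_zero' (Eventually.of_forall fun n => h0 _ _) ((ev 0).mono fun n hn => hn.2)
    (tendsto_one_div_add_atTop_nhds_zero_nat.comp t)⟩

theorem result (η : ℝ) (hη : 1 < η) : ∃ a : ℕ → ℕ, StrictMono a ∧ (∀ k, 0 < a k) ∧
    Tendsto (fun k => (a (k + 1) : ℝ) / a k) atTop (𝓝 η) ∧
    ∀ m, 1 ≤ m → Tendsto (fun n : ℕ => cum (S a n) m / n) atTop (𝓝 (kInd m)) := by
  have η0 : 0 < η := by linarith
  obtain ⟨M, hM, hu⟩ := diag (fun m n => ((2 * n + 1) ^ m * m + 2) / η ^ n)
    (fun m n => by positivity) (fun m => by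
      have h1 := (tendsto_pow_const_div_const_pow_of_one_lt m hη).const_mul (3 ^ m * m : ℝ)
      have h2 := (tendsto_pow_const_div_const_pow_of_one_lt 0 hη).const_mul 2
      have h3 := h1.add h2
      simp only [mul_zero, add_zero] at h3
      refine squeeze_zero' (Eventually.of_forall fun n => by positivity) ?_ h3
      filter_upwards [eventually_ge_atTop 1] with n hn
      have n1 : (1 : ℝ) ≤ n := by exact_mod_cast hn
      have : (2 * n + 1 : ℝ) ^ m ≤ (3 * n) ^ m := by gcongr; linarith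
      rw [← mul_div_assoc, ← mul_div_assoc, ← add_div]
      refine div_le_div_of_nonneg_right ?_ (by positivity)
      rw [mul_pow] at this
      rw [pow_zero]
      nlinarith [mul_le_mul_of_nonneg_right this (Nat.cast_nonneg (α := ℝ) m)])
  obtain ⟨a, ha⟩ := exists_rec (fun n p b => (∀ k, k + 1 = n → η * p k < b ∧
      (b : ℝ) ≤ η * p k + ((2 * n + 1) ^ M n * M n + 2)) ∧ 0 < b ∧ b ∉ Forb p n (M n))
    (fun n p => by
      have key : ∀ lo : ℕ, ∃ b, lo < b ∧ b ≤ lo + ((2 * n + 1) ^ M n * M n + 1) ∧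
          b ∉ Forb p n (M n) := by
        intro lo
        obtain ⟨b, hb, hb'⟩ := exists_mem_notMem_of_card_lt_card (s := Forb p n (M n))
          (t := Ioc lo (lo + ((2 * n + 1) ^ M n * M n + 1))) (by
            rw [Nat.card_Ioc]; have := card_Forb p n (M n); omega)
        exact ⟨b, (mem_Ioc.1 hb).1, (mem_Ioc.1 hb).2, hb'⟩
      obtain ⟨b, h1, h2, h3⟩ := key ⌈η * p (n - 1)⌉₊
      refine ⟨b, ?_, by omega, h3⟩
      rintro k rfl
      rw [Nat.add_sub_cancel] at h1 h2
      have h1' : ((⌈η * p k⌉₊ : ℕ) : ℝ) < b := by exact_mod_cast h1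
      have h2' : (b : ℝ) ≤ ⌈η * p k⌉₊ + ((2 * (k + 1 : ℕ) + 1) ^ M (k + 1) * M (k + 1) + 1) := by
        exact_mod_cast h2
      have h4 := Nat.le_ceil (η * p k)
      have h5 := Nat.ceil_lt_add_one (show 0 ≤ η * p k by positivity)
      constructor <;> linarith)
    (fun n p q b hpq h => by
      have e : Fr p n = Fr q n := by
        unfold Fr
        rw [image_congr (g := fun k => (q k : ℤ)) fun k hk => by
            simp only [hpq k (mem_range.1 hk)],
          image_congr (f := fun k => -(p k : ℤ)) (g := fun k => -(q k : ℤ)) fun k hk => by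
            simp only [hpq k (mem_range.1 hk)]]
      refine ⟨fun k hk => ?_, h.2.1, ?_⟩
      · rw [← hpq k (by omega)]; exact h.1 k hk
      · unfold Forb at h ⊢; rw [← e]; exact h.2.2)
  have pos : ∀ k, (0 : ℝ) < a k := fun k => by exact_mod_cast (ha k).2.1
  have lo : ∀ k, η * a k < a (k + 1) := fun k => ((ha (k + 1)).1 k rfl).1
  have gr : ∀ k, η ^ k ≤ a k := by
    intro k
    induction k with
    | zero => rw [pow_zero]; exact_mod_cast (ha 0).2.1
    | succ k ih => rw [pow_succ']; exact le_trans (by gcongr) (lo k).le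
  refine ⟨a, strictMono_nat_of_lt_succ fun k => ?_, fun k => (ha k).2.1, ?_, fun m _ => ?_⟩
  · have : (a k : ℝ) < a (k + 1) := lt_trans (by nlinarith [pos k]) (lo k)
    exact_mod_cast this
  · have t := ((hu.comp (tendsto_add_atTop_nat 1)).const_mul η).const_add η
    simp only [mul_zero, add_zero] at t
    refine tendsto_of_tendsto_of_tendsto_of_le_of_le tendsto_const_nhds t (fun k => ?_) fun k => ?_
    · exact (le_div_iff₀ (pos k)).2 (lo k).le
    · have h1 := ((ha (k + 1)).1 k rfl).2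
      simp only [Function.comp_apply]
      set L : ℝ := (2 * (k + 1 : ℕ) + 1) ^ M (k + 1) * M (k + 1) + 2
      have L0 : 0 ≤ L := by positivity
      rw [div_le_iff₀ (pos k)]
      have : L ≤ η * (L / η ^ (k + 1)) * a k := by
        calc L = η * (L / η ^ (k + 1)) * η ^ k := by field_simp; ring
          _ ≤ _ := by gcongr; exact gr k
      linarith
  · have d : Tendsto (fun n => cum (S a (n + 1)) m - cum (S a n) m) atTop (𝓝 (kInd m)) := by
      refine tendsto_const_nhds.congr' ?_
      filter_upwards [hM.eventually_ge_atTop m] with n hn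
      rw [step a n hn (ha n).2.1 (ha n).2.2]; ring
    have t := d.cesaro.add (tendsto_const_div_atTop_nhds_zero_nat (cum (S a 0) m))
    rw [add_zero] at t
    refine t.congr fun n => ?_
    rw [sum_range_sub (fun n => cum (S a n) m)]
    ring

end Pool.Agent.Results.MP_5c394f_nt.EveryRatio
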